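import Pool.Agent.Run7.h473.MD.Iface
import Pool.Agent.Q48.MDS.Local
import Pool.Agent.N879.QM.Afs

set_option autoImplicit false

namespace Pool.Agent.Run7.h501.MD

open Complex Filter Topology MeasureTheory Set
open Pool.Agent.Q48.MDS Pool.Agent.N879.QM Pool.Agent.Run7.h473.MD

/-- `L(s, χ_d)` is the value of the `L`-function -/
lemma Lchi_eq (h2 : S_BR2) {d : ℕ} (hd : Is 1 d) {s : ℂ} (hs : 1 < s.re) : Lchi d s = LL 1 d s := by
  have hd2 : 2 ≤ d := hd.1
  haveI : NeZero d := ⟨by omega⟩
  rw [LL_eq, DirichletCharacter.LFunction_eq_LSeries _ hs]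
  unfold Lchi
  refine LSeries_congr (fun {n} hn => ?_) s
  exact h2 d n hd (Nat.one_le_iff_ne_zero.2 hn)

lemma Lchi_one {s : ℂ} (hs : 1 < s.re) : Lchi 1 s = riemannZeta s := by
  unfold Lchi
  rw [← LSeries_one_eq_riemannZeta hs]
  refine LSeries_congr (fun {n} _ => ?_) s
  rw [kron_one_left]; simp

theorem A_sub_eq (h1 : S_BR1) (h2 : S_BR2) (k M : ℕ) (hM : 1 ≤ M) {z : Fin (k + 1) → ℂ}
    (hz : z ∈ tube (orth (k + 1))) :
    A k M z - ∏ j : Fin k, riemannZeta (z j.succ) = Hs k M z := by
  classical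
  have hre : ∀ i, 1 < (z i).re := fun i => hz i
  set g : ℕ → ℂ := fun d => if h : FundDisc d then coef k M z ⟨d, h⟩ else 0 with hg
  have hA : A k M z = ∑' d : ℕ, g d := by
    have : A k M z = ∑' d : {d : ℕ // FundDisc d}, g d := by
      unfold A
      refine tsum_congr fun d => ?_
      rw [hg]
      simp only [d.2, dif_pos]
      rfl
    rw [this]
    have h3 := tsum_subtype {d : ℕ | FundDisc d} g
    rw [show (∑' d : {d : ℕ // FundDisc d}, g d) = ∑' d : ({d : ℕ | FundDisc d} : Set ℕ), g d from rfl, h3]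
    refine tsum_congr fun d => ?_
    by_cases hd : FundDisc d
    · rw [indicator_of_mem (by exact hd)]
    · rw [indicator_of_notMem (by exact hd), hg]
      simp only [hd, dif_neg, not_false_eq_true]
  have hsum : Summable g := by
    have h4 := summable_coef k M hz
    have h5 : Summable (g ∘ ((↑) : {d : ℕ // FundDisc d} → ℕ)) := by
      refine h4.congr fun d => ?_
      simp only [hg, Function.comp, d.2, dif_pos]
    refine (summable_subtype_iff_indicator (s := {d : ℕ | FundDisc d})).1 h5 |>.congr fun d => ?_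
    by_cases hd : FundDisc d
    · rw [indicator_of_mem (by exact hd)]
    · rw [indicator_of_notMem (by exact hd), hg]
      simp only [hd, dif_neg, not_false_eq_true]
  rw [hA, hsum.tsum_eq_add_tsum_ite 1]
  have hf1 : FundDisc 1 := Or.inl ⟨rfl, squarefree_one⟩
  have hg1 : g 1 = ∏ j : Fin k, riemannZeta (z j.succ) := by
    simp only [hg, hf1, dif_pos, coef, kron_one_left]
    rw [Nat.cast_one, one_cpow]
    simp only [Int.cast_one, one_mul]
    exact Finset.prod_congr rfl fun j _ => Lchi_one (hre _)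
  rw [hg1, add_sub_cancel_left]
  unfold Hs
  refine tsum_congr fun d => ?_
  unfold cd
  by_cases hd : 2 ≤ d
  · rw [if_neg (by omega : d ≠ 1)]
    by_cases hI : Is 1 d
    · have hF : FundDisc d := (h1 d hd).2 hI
      rw [if_pos hI]
      simp only [hg, hF, dif_pos, coef]
      rw [h2 d M hI hM]
      congr 1
      exact Finset.prod_congr rfl fun j _ => Lchi_eq h2 hI (hre _)
    · have hF : ¬ FundDisc d := fun h => hI ((h1 d hd).1 h)
      rw [if_neg hI]
      simp only [hg, hF, dif_neg, not_false_eq_true]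
  · have hI : ¬ Is 1 d := fun h => hd h.1
    rw [if_neg hI]
    split_ifs with h1'
    · rfl
    · have h0 : d = 0 := by omega
      subst h0
      have hF : ¬ FundDisc 0 := fun h => absurd (fund_pos h) (by norm_num)
      simp only [hg, hF, dif_neg, not_false_eq_true]

theorem t_EQ (h1 : S_BR1) (h2 : S_BR2) : S_EQ := by
  intro k M hM z hz
  show F k M z = Hs k M z * PP k z
  unfold F PP
  rw [A_sub_eq h1 h2 k M hM hz]

end Pool.Agent.Run7.h501.MD
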