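import Pool.Agent.Run7.h473.MD.Iface
import Pool.Agent.H510R2.Div

set_option autoImplicit false

/-!
Piece M4C of the project MD of helper473.
-/

namespace Pool.Agent.Run7.h501.MD

open Complex Filter Topology MeasureTheory Set
open Pool.Agent.Q48.MDS Pool.Agent.N879.QM Pool.Agent.Run7.h473.MD

/-- sums of `wq n / n` -/
lemma sum_wq_div (M : ℕ) : ∑ n ∈ Finset.Icc 1 M, wq n * (n : ℝ)⁻¹ ≤ (1 + Real.log M) ^ 2 := by
  rcases Nat.eq_zero_or_pos M with hM | hM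
  · subst hM
    simp
  have hM1 : (1 : ℝ) ≤ M := by exact_mod_cast hM
  have hlog : 0 ≤ Real.log M := Real.log_nonneg hM1
  have h5 : ∑ m ∈ Finset.Icc 1 M, (m : ℝ)⁻¹ ≤ 1 + Real.log M := by
    have h5 := harmonic_le_one_add_log M
    rw [harmonic_eq_sum_Icc] at h5
    push_cast at h5
    exact h5
  have h1 : ∀ n ∈ Finset.Icc 1 M, wq n * (n : ℝ)⁻¹ ≤
      ∑ m ∈ Finset.Icc 1 M, if m ^ 2 ∣ n then (m : ℝ) * (n : ℝ)⁻¹ else 0 := by
    intro n hn
    rw [Finset.mem_Icc] at hn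
    unfold wq
    rw [Finset.sum_mul, ← Finset.sum_filter]
    apply Finset.sum_le_sum_of_subset_of_nonneg
    · intro m hm
      rw [Finset.mem_filter, Finset.mem_Icc] at hm ⊢
      exact ⟨⟨hm.1.1, hm.1.2.trans hn.2⟩, hm.2⟩
    · intro m _ _
      positivity
  refine (Finset.sum_le_sum h1).trans ?_
  rw [Finset.sum_comm]
  have h2 : ∀ m ∈ Finset.Icc 1 M, (∑ n ∈ Finset.Icc 1 M, if m ^ 2 ∣ n then (m : ℝ) * (n : ℝ)⁻¹ else 0) ≤
      (m : ℝ)⁻¹ * (1 + Real.log M) := by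
    intro m hm
    rw [Finset.mem_Icc] at hm
    have hm0 : (0 : ℝ) < m := by exact_mod_cast hm.1
    rw [← Finset.sum_filter]
    have h3 : (Finset.Icc 1 M).filter (fun n => m ^ 2 ∣ n) ⊆ (Finset.Icc 1 M).image (fun j => m ^ 2 * j) := by
      intro n hn
      rw [Finset.mem_filter, Finset.mem_Icc] at hn
      obtain ⟨⟨a1, a2⟩, j, hj⟩ := hn
      rw [Finset.mem_image]
      refine ⟨j, ?_, hj.symm⟩
      rw [Finset.mem_Icc]
      have hm2 : 1 ≤ m ^ 2 := Nat.one_le_pow _ _ hm.1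
      constructor
      · rcases Nat.eq_zero_or_pos j with h | h
        · subst h; omega
        · exact h
      · calc j = 1 * j := (one_mul j).symm
          _ ≤ m ^ 2 * j := Nat.mul_le_mul_right _ hm2
          _ = n := hj.symm
          _ ≤ M := a2
    have h4 : ∑ n ∈ (Finset.Icc 1 M).image (fun j : ℕ => m ^ 2 * j), (m : ℝ) * ((n : ℕ) : ℝ)⁻¹ =
        ∑ j ∈ Finset.Icc 1 M, (m : ℝ) * ((m ^ 2 * j : ℕ) : ℝ)⁻¹ := by
      refine Finset.sum_image (f := fun n : ℕ => (m : ℝ) * ((n : ℕ) : ℝ)⁻¹) (g := fun j : ℕ => m ^ 2 * j) ?_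
      intro a _ b _ hab
      have : 0 < m ^ 2 := Nat.pow_pos (by omega)
      exact Nat.eq_of_mul_eq_mul_left this hab
    calc ∑ n ∈ (Finset.Icc 1 M).filter (fun n => m ^ 2 ∣ n), (m : ℝ) * (n : ℝ)⁻¹
        ≤ ∑ n ∈ (Finset.Icc 1 M).image (fun j : ℕ => m ^ 2 * j), (m : ℝ) * ((n : ℕ) : ℝ)⁻¹ :=
          Finset.sum_le_sum_of_subset_of_nonneg h3 fun _ _ _ => by positivity
      _ = ∑ j ∈ Finset.Icc 1 M, (m : ℝ) * ((m ^ 2 * j : ℕ) : ℝ)⁻¹ := h4
      _ = (m : ℝ)⁻¹ * ∑ j ∈ Finset.Icc 1 M, (j : ℝ)⁻¹ := by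
          rw [Finset.mul_sum]
          refine Finset.sum_congr rfl fun j _ => ?_
          push_cast
          field_simp
      _ ≤ (m : ℝ)⁻¹ * (1 + Real.log M) := mul_le_mul_of_nonneg_left h5 (by positivity)
  refine (Finset.sum_le_sum h2).trans ?_
  rw [← Finset.sum_mul]
  calc (∑ m ∈ Finset.Icc 1 M, (m : ℝ)⁻¹) * (1 + Real.log M) ≤ (1 + Real.log M) * (1 + Real.log M) :=
        mul_le_mul_of_nonneg_right h5 (by linarith)
    _ = _ := by ring

/-- `∑ n e^{-n^a}` converges -/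
lemma summable_u {a : ℝ} (ha : 0 < a) : Summable (fun n : ℕ => (n : ℝ) * Real.exp (-((n : ℝ) ^ a))) := by
  set k : ℕ := ⌈3 / a⌉₊ with hk
  have hk3 : 3 ≤ a * k := by
    have := Nat.le_ceil (3 / a)
    rw [div_le_iff₀ ha] at this
    rw [mul_comm]; exact this
  have hs : Summable (fun n : ℕ => (k.factorial : ℝ) * ((n : ℝ) ^ (2 : ℕ))⁻¹) :=
    (Real.summable_nat_pow_inv.2 (by norm_num)).mul_left _
  refine Summable.of_nonneg_of_le (fun n => by positivity) (fun n => ?_) hs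
  rcases Nat.eq_zero_or_pos n with h0 | h0
  · subst h0; simp
  · have hn1 : (1 : ℝ) ≤ n := by exact_mod_cast h0
    have hn0 : (0 : ℝ) < n := by linarith
    have hx : 0 ≤ (n : ℝ) ^ a := by positivity
    have h1 := Real.pow_div_factorial_le_exp _ hx k
    have h2 : (n : ℝ) ^ (3 : ℕ) ≤ ((n : ℝ) ^ a) ^ k := by
      rw [← Real.rpow_natCast ((n : ℝ) ^ a) k, ← Real.rpow_mul hn0.le, ← Real.rpow_natCast]
      exact Real.rpow_le_rpow_of_exponent_le hn1 (by exact_mod_cast hk3)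
    have hf : (0 : ℝ) < k.factorial := by exact_mod_cast k.factorial_pos
    have h3 : (n : ℝ) ^ (3 : ℕ) / k.factorial ≤ Real.exp ((n : ℝ) ^ a) :=
      (div_le_div_of_nonneg_right h2 hf.le).trans h1
    rw [Real.exp_neg]
    have h4 : (Real.exp ((n : ℝ) ^ a))⁻¹ ≤ k.factorial / (n : ℝ) ^ (3 : ℕ) := by
      rw [inv_le_comm₀ (Real.exp_pos _) (by positivity), inv_div]
      exact h3
    calc (n : ℝ) * (Real.exp ((n : ℝ) ^ a))⁻¹ ≤ n * (k.factorial / (n : ℝ) ^ (3 : ℕ)) := by gcongr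
      _ = _ := by field_simp

/-- the terms of the smoothed sum -/
noncomputable def tf (q : ℕ) (z : ℂ) (Y : ℝ) (n : ℕ) : ℂ :=
  (n.divisors.card : ℂ) * vl 1 q n * (n : ℂ) ^ (-z) * ((Real.exp (-(n / Y)) : ℝ) : ℂ)

lemma vl_norm (q n : ℕ) : ‖vl 1 q n‖ ≤ 1 := DirichletCharacter.norm_le_one _ _

lemma tf_le {q : ℕ} {z : ℂ} {Y : ℝ} (hz : 0 ≤ z.re) (n : ℕ) :
    ‖tf q z Y n‖ ≤ n * Real.exp (-(n / Y)) := by
  rcases Nat.eq_zero_or_pos n with h0 | h0
  · subst h0; simp [tf]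
  · unfold tf
    rw [norm_mul, norm_mul, norm_mul, Complex.norm_natCast, Complex.norm_natCast_cpow_of_pos h0, Complex.norm_real,
      Real.norm_of_nonneg (Real.exp_pos _).le]
    have h1 : (n.divisors.card : ℝ) ≤ n := by exact_mod_cast Nat.card_divisors_le_self n
    have h2 : (n : ℝ) ^ (-z).re ≤ 1 := by
      rw [Complex.neg_re]
      exact Real.rpow_le_one_of_one_le_of_nonpos (by exact_mod_cast h0) (by linarith)
    have h3 := vl_norm q n
    have h4 : (0 : ℝ) ≤ (n : ℝ) ^ (-z).re := by positivity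
    calc (n.divisors.card : ℝ) * ‖vl 1 q n‖ * (n : ℝ) ^ (-z).re * Real.exp (-(n / Y))
        ≤ n * 1 * 1 * Real.exp (-(n / Y)) := by gcongr
      _ = _ := by ring

/-- cut of the smoothed sum -/
lemma SS_le {a : ℝ} (ha : 0 < a) {q K : ℕ} {z : ℂ} {Y : ℝ} (hz : 0 ≤ z.re)
    (hK : ∀ n : ℕ, K < n → (n : ℝ) ^ a ≤ n / Y) :
    ‖SS q z Y‖ ≤ ‖∑ n ∈ Finset.Icc 1 K, tf q z Y n‖ + ∑' n : ℕ, (n : ℝ) * Real.exp (-((n : ℝ) ^ a)) := by
  classical
  set f1 : ℕ → ℂ := fun n => if n ≤ K then tf q z Y n else 0 with hf1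
  set f2 : ℕ → ℂ := fun n => if n ≤ K then 0 else tf q z Y n with hf2
  have hb : ∀ n, ‖f2 n‖ ≤ (n : ℝ) * Real.exp (-((n : ℝ) ^ a)) := by
    intro n
    rw [hf2]
    by_cases h : n ≤ K
    · simp only [h, if_true, norm_zero]; positivity
    · simp only [h, if_false]
      refine (tf_le hz n).trans ?_
      have := hK n (by omega)
      gcongr
  have hs2 : Summable f2 := Summable.of_norm_bounded (summable_u ha) hb
  have hs1 : Summable f1 := by
    refine summable_of_ne_finset_zero (s := Finset.range (K + 1)) fun n hn => ?_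
    rw [Finset.mem_range, not_lt] at hn
    rw [hf1]
    simp only [show ¬ n ≤ K by omega, if_false]
  have h1 : SS q z Y = (∑' n, f1 n) + ∑' n, f2 n := by
    rw [← hs1.tsum_add hs2]
    unfold SS
    refine tsum_congr fun n => ?_
    rw [hf1, hf2]
    by_cases h : n ≤ K
    · simp only [h, if_true, add_zero]; rfl
    · simp only [h, if_false, zero_add]; rfl
  have h2 : ∑' n, f1 n = ∑ n ∈ Finset.Icc 1 K, tf q z Y n := by
    rw [tsum_eq_sum (s := Finset.Icc 1 K)]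
    · refine Finset.sum_congr rfl fun n hn => ?_
      rw [Finset.mem_Icc] at hn
      rw [hf1]; simp only [hn.2, if_true]
    · intro n hn
      rw [Finset.mem_Icc, not_and_or, not_le, not_le] at hn
      rw [hf1]
      rcases hn with hn | hn
      · have h0 : n = 0 := by omega
        subst h0
        simp [tf]
      · simp only [show ¬ n ≤ K by omega, if_false]
  rw [h1, h2]
  refine (norm_add_le _ _).trans (add_le_add le_rfl ?_)
  exact tsum_of_norm_bounded (summable_u ha).hasSum hb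

lemma Q_card {X : ℝ} (hX : 1 ≤ X) : ((Q 1 X).card : ℝ) ≤ 2 * X := by
  classical
  have h1 : (Q 1 X).card ≤ ⌈X⌉₊ := by
    unfold Q
    refine (Finset.card_filter_le _ _).trans ?_
    rw [Nat.card_Ico]; omega
  have h2 := Nat.ceil_lt_add_one (show 0 ≤ X by linarith)
  have h3 : ((Q 1 X).card : ℝ) ≤ (⌈X⌉₊ : ℝ) := by exact_mod_cast h1
  linarith

theorem t_M4C (hH : S_HBG) : S_M4C := by
  intro κ ε hκ hε
  set e : ℝ := min ε 1 with he
  have he0 : 0 < e := lt_min hε one_pos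
  have he1 : e ≤ 1 := min_le_right _ _
  have heε : e ≤ ε := min_le_left _ _
  obtain ⟨CH, hCH, H⟩ := hH (e / 8) (by positivity)
  obtain ⟨CD, hCD, hD⟩ := Pool.Agent.H510R2.divisor_bound (e / 64) (by positivity)
  have haa : 0 < (e / 4) / (1 + e / 4) := by positivity
  set a : ℝ := (e / 4) / (1 + e / 4) with ha
  set T : ℝ := ∑' n : ℕ, (n : ℝ) * Real.exp (-((n : ℝ) ^ a)) with hT
  have hT0 : 0 ≤ T := tsum_nonneg fun n => by positivity
  have hEE : (0 : ℝ) < 1 + 64 / e := by positivity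
  set W0 : ℝ := CD ^ 2 * (1 + 64 / e) ^ 2 with hW0
  have hW00 : 0 < W0 := by positivity
  refine ⟨2 * (CH * (2 * (2 * (2 * (W0 * 2))))) + 4 * T ^ 2 + 1, by positivity, fun X Y z hX hY hz => ?_⟩
  have hX0 : (0 : ℝ) < X := by linarith
  have hY0 : (0 : ℝ) < Y := by linarith
  set P : ℝ := X * Y with hP
  have hP1 : 1 ≤ P := one_le_mul_of_one_le_of_one_le hX hY
  have hP0 : 0 < P := by linarith
  set K : ℕ := ⌈Y ^ (1 + e / 4)⌉₊ with hK
  have hYe : 1 ≤ Y ^ (1 + e / 4) := Real.one_le_rpow hY (by positivity)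
  have hKge : Y ^ (1 + e / 4) ≤ K := Nat.le_ceil _
  have hK1r : (1 : ℝ) ≤ K := hYe.trans hKge
  have hK1 : 1 ≤ K := by exact_mod_cast hK1r
  have hKle : (K : ℝ) ≤ 2 * Y ^ (1 + e / 4) := by
    have := Nat.ceil_lt_add_one (show 0 ≤ Y ^ (1 + e / 4) by positivity)
    linarith
  have hY2 : Y ^ (1 + e / 4) ≤ Y ^ (2 : ℝ) := Real.rpow_le_rpow_of_exponent_le hY (by linarith)
  have hYP : X * Y ^ (2 : ℝ) ≤ P ^ (2 : ℝ) := by
    rw [hP, Real.mul_rpow hX0.le hY0.le]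
    have : X ≤ X ^ (2 : ℝ) := by
      rw [Real.rpow_two]; nlinarith
    gcongr
  have hYP' : Y ^ (2 : ℝ) ≤ P ^ (2 : ℝ) := by
    refine le_trans ?_ hYP
    have : 0 ≤ Y ^ (2 : ℝ) := by positivity
    exact le_mul_of_one_le_left this hX
  have hKP : (K : ℝ) ≤ 2 * P ^ (2 : ℝ) := by linarith
  have hXKP : X * K ≤ 2 * P ^ (2 : ℝ) := by
    calc X * K ≤ X * (2 * Y ^ (2 : ℝ)) := by gcongr; linarith
      _ = 2 * (X * Y ^ (2 : ℝ)) := by ring
      _ ≤ _ := by gcongr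
  have hzr : 0 ≤ z.re := by linarith
  -- the cut
  have hcut : ∀ n : ℕ, K < n → (n : ℝ) ^ a ≤ n / Y := by
    intro n hn
    have hnK : (K : ℝ) ≤ n := by exact_mod_cast hn.le
    have hn1 : (1 : ℝ) ≤ n := hK1r.trans hnK
    have hn0 : (0 : ℝ) < n := by linarith
    rw [le_div_iff₀ hY0]
    have h1 : Y ≤ (n : ℝ) ^ (1 / (1 + e / 4)) := by
      have h2 : Y ^ (1 + e / 4) ≤ n := hKge.trans hnK
      have h3 := Real.rpow_le_rpow (by positivity) h2 (show 0 ≤ 1 / (1 + e / 4) by positivity)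
      rwa [← Real.rpow_mul hY0.le, mul_one_div_cancel (by positivity), Real.rpow_one] at h3
    calc (n : ℝ) ^ a * Y ≤ (n : ℝ) ^ a * (n : ℝ) ^ (1 / (1 + e / 4)) := by gcongr
      _ = (n : ℝ) ^ (1 : ℝ) := by
          rw [← Real.rpow_add hn0]
          congr 1
          rw [ha]; field_simp; ring
      _ = n := Real.rpow_one _
  -- the coefficients
  set y : ℕ → ℂ := fun n => (n.divisors.card : ℂ) * (n : ℂ) ^ (-z) * ((Real.exp (-(n / Y)) : ℝ) : ℂ) with hy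
  have hyn : ∀ n ∈ Finset.Icc 1 K, wq n * ‖y n‖ ^ 2 ≤ (CD ^ 2 * (K : ℝ) ^ (e / 32)) * (wq n * (n : ℝ)⁻¹) := by
    intro n hn
    rw [Finset.mem_Icc] at hn
    have hn1 : (1 : ℝ) ≤ n := by exact_mod_cast hn.1
    have hn0 : (0 : ℝ) < n := by linarith
    have hw : 0 ≤ wq n := by unfold wq; positivity
    have h1 : ‖y n‖ ≤ (CD * (n : ℝ) ^ (e / 64)) * (n : ℝ) ^ (-(1 / 2 : ℝ)) := by
      rw [hy]
      simp only []
      rw [norm_mul, norm_mul, Complex.norm_natCast, Complex.norm_natCast_cpow_of_pos hn.1, Complex.norm_real,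
        Real.norm_of_nonneg (Real.exp_pos _).le]
      have h2 := hD n hn.1
      have h3 : (n : ℝ) ^ (-z).re ≤ (n : ℝ) ^ (-(1 / 2 : ℝ)) := by
        rw [Complex.neg_re]
        exact Real.rpow_le_rpow_of_exponent_le hn1 (by linarith)
      have h4 : Real.exp (-(n / Y)) ≤ 1 := by
        rw [Real.exp_le_one_iff]
        have : 0 ≤ n / Y := by positivity
        linarith
      calc (n.divisors.card : ℝ) * (n : ℝ) ^ (-z).re * Real.exp (-(n / Y))
          ≤ (CD * (n : ℝ) ^ (e / 64)) * (n : ℝ) ^ (-(1 / 2 : ℝ)) * 1 := by gcongr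
        _ = _ := by ring
    have h5 : ‖y n‖ ^ 2 ≤ CD ^ 2 * (n : ℝ) ^ (e / 32) * (n : ℝ)⁻¹ := by
      calc ‖y n‖ ^ 2 ≤ ((CD * (n : ℝ) ^ (e / 64)) * (n : ℝ) ^ (-(1 / 2 : ℝ))) ^ 2 := by gcongr
        _ = CD ^ 2 * ((n : ℝ) ^ (e / 64)) ^ 2 * ((n : ℝ) ^ (-(1 / 2 : ℝ))) ^ 2 := by ring
        _ = _ := by
            have g1 : ((n : ℝ) ^ (e / 64)) ^ 2 = (n : ℝ) ^ (e / 32) := by
              rw [← Real.rpow_natCast ((n : ℝ) ^ (e / 64)) 2, ← Real.rpow_mul hn0.le]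
              congr 1
              push_cast; ring
            have g2 : ((n : ℝ) ^ (-(1 / 2 : ℝ))) ^ 2 = (n : ℝ)⁻¹ := by
              rw [← Real.rpow_natCast ((n : ℝ) ^ (-(1 / 2 : ℝ))) 2, ← Real.rpow_mul hn0.le, ← Real.rpow_neg_one]
              congr 1
              push_cast; ring
            rw [g1, g2]
    have h6 : (n : ℝ) ^ (e / 32) ≤ (K : ℝ) ^ (e / 32) :=
      Real.rpow_le_rpow hn0.le (by exact_mod_cast hn.2) (by positivity)
    calc wq n * ‖y n‖ ^ 2 ≤ wq n * (CD ^ 2 * (K : ℝ) ^ (e / 32) * (n : ℝ)⁻¹) := by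
          refine mul_le_mul_of_nonneg_left (h5.trans ?_) hw
          gcongr
      _ = _ := by ring
  have hWs : ∑ n ∈ Finset.Icc 1 K, wq n * ‖y n‖ ^ 2 ≤ W0 * (K : ℝ) ^ (e / 16) := by
    refine (Finset.sum_le_sum hyn).trans ?_
    rw [← Finset.mul_sum]
    have h1 := sum_wq_div K
    have hlog : 0 ≤ Real.log K := Real.log_nonneg hK1r
    have h2 : Real.log K ≤ (K : ℝ) ^ (e / 64) / (e / 64) := Real.log_le_rpow_div (by linarith) (by positivity)
    have h3 : (1 : ℝ) ≤ (K : ℝ) ^ (e / 64) := Real.one_le_rpow hK1r (by positivity)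
    have h4 : 1 + Real.log K ≤ (1 + 64 / e) * (K : ℝ) ^ (e / 64) := by
      have : (K : ℝ) ^ (e / 64) / (e / 64) = 64 / e * (K : ℝ) ^ (e / 64) := by field_simp
      rw [this] at h2
      linarith [add_mul 1 (64 / e) ((K : ℝ) ^ (e / 64))]
    have h5 : (1 + Real.log K) ^ 2 ≤ (1 + 64 / e) ^ 2 * (K : ℝ) ^ (e / 32) := by
      calc (1 + Real.log K) ^ 2 ≤ ((1 + 64 / e) * (K : ℝ) ^ (e / 64)) ^ 2 := by gcongr
        _ = (1 + 64 / e) ^ 2 * ((K : ℝ) ^ (e / 64)) ^ 2 := by ring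
        _ = _ := by
            rw [← Real.rpow_natCast ((K : ℝ) ^ (e / 64)), ← Real.rpow_mul (by positivity)]
            congr 2
            push_cast; ring
    calc CD ^ 2 * (K : ℝ) ^ (e / 32) * ∑ n ∈ Finset.Icc 1 K, wq n * (n : ℝ)⁻¹
        ≤ CD ^ 2 * (K : ℝ) ^ (e / 32) * ((1 + 64 / e) ^ 2 * (K : ℝ) ^ (e / 32)) := by
          gcongr
          exact h1.trans h5
      _ = CD ^ 2 * (1 + 64 / e) ^ 2 * ((K : ℝ) ^ (e / 32) * (K : ℝ) ^ (e / 32)) := by ring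
      _ = _ := by
          rw [← Real.rpow_add (by linarith)]
          rw [hW0]
          congr 2
          ring
  -- powers
  have h2e : ∀ c : ℝ, 0 ≤ c → c ≤ 1 → (2 : ℝ) ^ c ≤ 2 := by
    intro c h0 h1
    calc (2 : ℝ) ^ c ≤ (2 : ℝ) ^ (1 : ℝ) := Real.rpow_le_rpow_of_exponent_le (by norm_num) h1
      _ = 2 := Real.rpow_one _
  have hp1 : (X * K) ^ (e / 8) ≤ 2 * P ^ (e / 4) := by
    calc (X * K) ^ (e / 8) ≤ (2 * P ^ (2 : ℝ)) ^ (e / 8) :=
          Real.rpow_le_rpow (by positivity) hXKP (by positivity)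
      _ = 2 ^ (e / 8) * P ^ (e / 4) := by
          rw [Real.mul_rpow (by norm_num) (by positivity), ← Real.rpow_mul hP0.le]
          congr 2; ring
      _ ≤ 2 * P ^ (e / 4) := by
          have := h2e (e / 8) (by positivity) (by linarith)
          gcongr
  have hp2 : (K : ℝ) ^ (e / 16) ≤ 2 * P ^ (e / 8) := by
    calc (K : ℝ) ^ (e / 16) ≤ (2 * P ^ (2 : ℝ)) ^ (e / 16) :=
          Real.rpow_le_rpow (by positivity) hKP (by positivity)
      _ = 2 ^ (e / 16) * P ^ (e / 8) := by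
          rw [Real.mul_rpow (by norm_num) (by positivity), ← Real.rpow_mul hP0.le]
          congr 2; ring
      _ ≤ 2 * P ^ (e / 8) := by
          have := h2e (e / 16) (by positivity) (by linarith)
          gcongr
  have hp3 : X + K ≤ 2 * (2 * (P ^ (e / 4) * (X + Y))) := by
    have h1 : Y ^ (1 + e / 4) = Y * Y ^ (e / 4) := by
      rw [Real.rpow_add hY0, Real.rpow_one]
    have h2 : Y ^ (e / 4) ≤ P ^ (e / 4) := by
      refine Real.rpow_le_rpow hY0.le ?_ (by positivity)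
      rw [hP]; nlinarith
    have h3 : (1 : ℝ) ≤ P ^ (e / 4) := Real.one_le_rpow hP1 (by positivity)
    have h4 : Y * Y ^ (e / 4) ≤ Y * P ^ (e / 4) := by gcongr
    have h5 : X ≤ X * P ^ (e / 4) := by nlinarith
    have h6 : 0 ≤ X * P ^ (e / 4) := by positivity
    have h7 : 0 ≤ Y * P ^ (e / 4) := by positivity
    nlinarith
  have hPt : P ^ (e / 4) * P ^ (e / 4) * P ^ (e / 8) ≤ P ^ ε := by
    rw [← Real.rpow_add hP0, ← Real.rpow_add hP0]
    refine Real.rpow_le_rpow_of_exponent_le hP1 ?_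
    linarith
  -- assembly
  have hmain : ∑ q ∈ Q 1 X, ‖∑ n ∈ Finset.Icc 1 K, tf q z Y n‖ ^ 2 ≤
      CH * (2 * (2 * (2 * (W0 * 2)))) * (P ^ ε * (X + Y)) := by
    have h1 := H 1 X K y (Or.inl rfl) hX hK1
    have h2 : ∀ q : ℕ, ∑ n ∈ Finset.Icc 1 K, tf q z Y n = ∑ n ∈ Finset.Icc 1 K, vl 1 q n * y n := by
      intro q
      refine Finset.sum_congr rfl fun n _ => ?_
      rw [hy]; unfold tf; ring
    simp only [h2]
    refine h1.trans ?_
    have hw0 : 0 ≤ ∑ n ∈ Finset.Icc 1 K, wq n * ‖y n‖ ^ 2 :=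
      Finset.sum_nonneg fun n _ => mul_nonneg (by unfold wq; positivity) (by positivity)
    calc CH * (X * K) ^ (e / 8) * (X + K) * ∑ n ∈ Finset.Icc 1 K, wq n * ‖y n‖ ^ 2
        ≤ CH * (2 * P ^ (e / 4)) * (2 * (2 * (P ^ (e / 4) * (X + Y)))) * (W0 * (2 * P ^ (e / 8))) := by
          gcongr
          exact hWs.trans (by gcongr)
      _ = CH * (2 * (2 * (2 * (W0 * 2)))) * ((P ^ (e / 4) * P ^ (e / 4) * P ^ (e / 8)) * (X + Y)) := by ring
      _ ≤ _ := by gcongr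
  have hcard := Q_card hX
  have hPe1 : (1 : ℝ) ≤ P ^ ε := Real.one_le_rpow hP1 hε.le
  have hXP : X ≤ P ^ ε * (X + Y) := by nlinarith
  calc ∑ q ∈ Q 1 X, ‖SS q z Y‖ ^ 2
      ≤ ∑ q ∈ Q 1 X, (2 * ‖∑ n ∈ Finset.Icc 1 K, tf q z Y n‖ ^ 2 + 2 * T ^ 2) := by
        refine Finset.sum_le_sum fun q _ => ?_
        have h1 := SS_le haa hzr hcut (q := q)
        have h2 : 0 ≤ ‖SS q z Y‖ := norm_nonneg _
        calc ‖SS q z Y‖ ^ 2 ≤ (‖∑ n ∈ Finset.Icc 1 K, tf q z Y n‖ + T) ^ 2 := by gcongr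
          _ ≤ _ := by nlinarith [sq_nonneg (‖∑ n ∈ Finset.Icc 1 K, tf q z Y n‖ - T)]
    _ = 2 * (∑ q ∈ Q 1 X, ‖∑ n ∈ Finset.Icc 1 K, tf q z Y n‖ ^ 2) + ((Q 1 X).card : ℝ) * (2 * T ^ 2) := by
        rw [Finset.sum_add_distrib, Finset.sum_const, nsmul_eq_mul, Finset.mul_sum]
    _ ≤ 2 * (CH * (2 * (2 * (2 * (W0 * 2)))) * (P ^ ε * (X + Y))) + (2 * X) * (2 * T ^ 2) := by gcongr
    _ ≤ (2 * (CH * (2 * (2 * (2 * (W0 * 2))))) + 4 * T ^ 2 + 1) * (P ^ ε * (X + Y)) := by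
        have h1 : (2 * X) * (2 * T ^ 2) ≤ 4 * T ^ 2 * (P ^ ε * (X + Y)) := by
          have : 0 ≤ 4 * T ^ 2 := by positivity
          nlinarith
        have h2 : 0 ≤ P ^ ε * (X + Y) := by positivity
        nlinarith
    _ = _ := by ring

end Pool.Agent.Run7.h501.MD
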