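import Pool.Agent.Run7.h501.MD.M4Da
import Pool.Agent.Q48.MDS.Series

set_option autoImplicit false

/-!
Piece M4D of the project MD of helper473.
-/

namespace Pool.Agent.Run7.h501.MD

open Complex Filter Topology MeasureTheory Set
open Pool.Agent.Q48.MDS Pool.Agent.N879.QM Pool.Agent.Run7.h473.MD

/-- the integral over the line `1/2 - κ` -/
noncomputable def JJ (κ : ℝ) (q : ℕ) (t : ℝ) : ℝ :=
  ∫ v : ℝ, ‖LL 1 q (ln (1 / 2 - κ) (t + v))‖ ^ 2 * Real.exp (-|v|)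

lemma JJ_nonneg (κ : ℝ) (q : ℕ) (t : ℝ) : 0 ≤ JJ κ q t := integral_nonneg fun v => by positivity

lemma key (hL : S_LBD) (hF : S_FEQ) {κ Cg : ℝ} {B : ℕ} (h0 : 0 < κ) (h1 : κ ≤ 1 / 8) (hCg : 0 ≤ Cg)
    (hg : ∀ s : ℂ, 1 / 2 - κ ≤ s.re → s.re ≤ 1 / 2 → ‖gam s‖ ≤ Cg * (1 + |s.im|) ^ B) {X : ℝ} (hX : 1 ≤ X)
    {A : ℕ} {S : ℝ} (hS0 : 0 ≤ S) (hS : ∀ τ, MM κ X τ ≤ S * (1 + |τ|) ^ A) (t : ℝ) :
    ∑ q ∈ Q 1 X, JJ κ q t ^ 2 ≤ (∫ v : ℝ, Real.exp (-|v|)) *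
      ((X ^ κ) ^ 4 * Cg ^ 4 * S * (1 + |t|) ^ (4 * B + A) * ∫ v : ℝ, (1 + |v|) ^ (4 * B + A) * Real.exp (-|v|)) := by
  have hE0 : 0 ≤ ∫ v : ℝ, Real.exp (-|v|) := integral_nonneg fun v => by positivity
  have hX0 : 0 < X := by linarith
  have hc0 : 0 < 1 / 2 - κ := by linarith
  have hc1 : 1 / 2 - κ ≤ 1 := by linarith
  have h2 : ∀ q ∈ Q 1 X, JJ κ q t ^ 2 ≤ (∫ v : ℝ, Real.exp (-|v|)) *
      ∫ v : ℝ, ‖LL 1 q (ln (1 / 2 - κ) (t + v))‖ ^ 4 * Real.exp (-|v|) := by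
    intro q hq
    obtain ⟨hI, _⟩ := memQ hq
    have i2 := L_int hL hI hc0 hc1 t 2
    have i4 := L_int hL hI hc0 hc1 t 4
    have e4 : (fun v : ℝ => (‖LL 1 q (ln (1 / 2 - κ) (t + v))‖ ^ 2) ^ 2 * Real.exp (-|v|)) =
        fun v : ℝ => ‖LL 1 q (ln (1 / 2 - κ) (t + v))‖ ^ 4 * Real.exp (-|v|) := by
      funext v; ring
    have h3 := cs_w (f := fun v => ‖LL 1 q (ln (1 / 2 - κ) (t + v))‖ ^ 2) i2 (by rw [e4]; exact i4)
    rw [e4] at h3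
    exact h3
  refine (Finset.sum_le_sum h2).trans ?_
  rw [← Finset.mul_sum, ← integral_finset_sum _ fun q hq => L_int hL (memQ hq).1 hc0 hc1 t 4]
  refine mul_le_mul_of_nonneg_left ?_ hE0
  rw [← integral_const_mul]
  refine integral_mono (integrable_finset_sum _ fun q hq => L_int hL (memQ hq).1 hc0 hc1 t 4)
    ((int_w (4 * B + A)).const_mul _) fun v => ?_
  simp only []
  set τ : ℝ := t + v with hτ
  have h3 : ∀ q ∈ Q 1 X, ‖LL 1 q (ln (1 / 2 - κ) τ)‖ ^ 4 * Real.exp (-|v|) ≤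
      (X ^ κ) ^ 4 * Cg ^ 4 * (1 + |τ|) ^ (4 * B) * Real.exp (-|v|) * ‖LL 1 q (ln (1 / 2 + κ) (-τ))‖ ^ 4 := by
    intro q hq
    have h4 := fe_line hF h0 h1 hg hX hq τ
    calc ‖LL 1 q (ln (1 / 2 - κ) τ)‖ ^ 4 * Real.exp (-|v|)
        ≤ (X ^ κ * (Cg * (1 + |τ|) ^ B) * ‖LL 1 q (ln (1 / 2 + κ) (-τ))‖) ^ 4 * Real.exp (-|v|) := by gcongr
      _ = _ := by
          have : (1 + |τ|) ^ (4 * B) = ((1 + |τ|) ^ B) ^ 4 := by rw [← pow_mul, mul_comm]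
          rw [this]; ring
  refine (Finset.sum_le_sum h3).trans ?_
  rw [← Finset.mul_sum]
  have h5 := hS (-τ)
  unfold MM at h5
  rw [abs_neg] at h5
  have h6 : (1 + |τ|) ^ (4 * B + A) ≤ ((1 + |t|) * (1 + |v|)) ^ (4 * B + A) := by
    have := abs_add_le' t v
    gcongr
  calc (X ^ κ) ^ 4 * Cg ^ 4 * (1 + |τ|) ^ (4 * B) * Real.exp (-|v|) *
        ∑ q ∈ Q 1 X, ‖LL 1 q (ln (1 / 2 + κ) (-τ))‖ ^ 4
      ≤ (X ^ κ) ^ 4 * Cg ^ 4 * (1 + |τ|) ^ (4 * B) * Real.exp (-|v|) * (S * (1 + |τ|) ^ A) := by gcongr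
    _ = (X ^ κ) ^ 4 * Cg ^ 4 * S * Real.exp (-|v|) * (1 + |τ|) ^ (4 * B + A) := by rw [pow_add]; ring
    _ ≤ (X ^ κ) ^ 4 * Cg ^ 4 * S * Real.exp (-|v|) * ((1 + |t|) * (1 + |v|)) ^ (4 * B + A) := by gcongr
    _ = _ := by rw [mul_pow]; ring

lemma big_re {q : ℕ} (hq : Is 1 q) {z : ℂ} (hz : 9 / 8 ≤ z.re) : ‖LL 1 q z‖ ≤ Zc (9 / 8) := by
  have : NeZero q := ⟨by have := hq.1; omega⟩
  rw [LL_eq, DirichletCharacter.LFunction_eq_LSeries _ (by linarith)]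
  unfold LSeries Zc
  refine tsum_of_norm_bounded (summable_bound (by norm_num)).hasSum fun n => ?_
  refine (norm_term_le (fun n => DirichletCharacter.norm_le_one _ _) z rfl n).trans ?_
  split_ifs with h
  · exact le_rfl
  · exact Real.rpow_le_rpow_of_exponent_le (by exact_mod_cast Nat.one_le_iff_ne_zero.2 h) (by linarith)

theorem t_M4D (hL : S_LBD) (hG : S_GAM) (hF : S_FEQ) (hA : S_M4A) (hC : S_M4C) : S_M4D := by
  intro κ' ε hκ' hε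
  set κ : ℝ := min κ' (1 / 8) with hκdef
  have h0 : 0 < κ := lt_min hκ' (by norm_num)
  have h1 : κ ≤ 1 / 8 := min_le_right _ _
  have hκκ : κ ≤ κ' := min_le_left _ _
  obtain ⟨Cg₀, B, hg₀⟩ := hG.2 (1 / 2 - κ) (1 / 2) (by linarith) (by norm_num)
  set Cg : ℝ := max Cg₀ 0 with hCgdef
  have hCg : 0 ≤ Cg := le_max_right _ _
  have hg : ∀ s : ℂ, 1 / 2 - κ ≤ s.re → s.re ≤ 1 / 2 → ‖gam s‖ ≤ Cg * (1 + |s.im|) ^ B := by
    intro s hs1 hs2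
    refine (hg₀ s hs1 hs2).trans ?_
    have : Cg₀ ≤ Cg := le_max_left _ _
    gcongr
  obtain ⟨CA, hCA, hA'⟩ := hA κ h0 h1
  set e : ℝ := min ε 1 with he
  have he0 : 0 < e := lt_min hε one_pos
  have he1 : e ≤ 1 := min_le_right _ _
  have heε : e ≤ ε := min_le_left _ _
  obtain ⟨CC, hCC, hC'⟩ := hC κ (e / 8) h0 (by positivity)
  set B' : ℕ := ⌈(B : ℝ) / κ⌉₊ with hB'
  have hBB : (B : ℝ) ≤ κ * B' := by
    have := Nat.le_ceil ((B : ℝ) / κ)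
    rw [div_le_iff₀ h0] at this
    rw [mul_comm]; exact this
  set A : ℕ := 4 + 2 * B' with hAdef
  set E0 : ℝ := ∫ v : ℝ, Real.exp (-|v|) with hE0def
  have hE0 : 0 ≤ E0 := integral_nonneg fun v => by positivity
  set cc : ℝ := ∫ v : ℝ, (1 + |v|) ^ (4 * B + A) * Real.exp (-|v|) with hccdef
  have hcc : 0 ≤ cc := integral_nonneg fun v => by positivity
  set C3 : ℝ := 2 * CA ^ 2 * (E0 * (Cg ^ 4 * cc)) with hC3def
  have hC3 : 0 ≤ C3 := by positivity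
  -- the key inequality
  have KEY : ∀ (X : ℝ) (S : ℝ), 1 ≤ X → 0 ≤ S → (∀ τ, MM κ X τ ≤ S * (1 + |τ|) ^ A) → ∀ z : ℂ,
      1 / 2 + κ ≤ z.re → z.re ≤ 9 / 8 →
      ∑ q ∈ Q 1 X, ‖LL 1 q z‖ ^ 4 ≤ (4 * CC * X ^ (1 + e) + C3 * X ^ (-(κ * e)) * S) * (1 + |z.im|) ^ A := by
    intro X S hX hS0 hS z hz1 hz2
    have hX0 : 0 < X := by linarith
    set t : ℝ := z.im with ht
    have hT1 : (1 : ℝ) ≤ 1 + |t| := by linarith [abs_nonneg t]
    have hT0 : (0 : ℝ) < 1 + |t| := by linarith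
    set Y : ℝ := X ^ (1 + e / 4) * (1 + |t|) ^ B' with hYdef
    have hXe : X ≤ X ^ (1 + e / 4) := by
      calc X = X ^ (1 : ℝ) := (Real.rpow_one X).symm
        _ ≤ _ := Real.rpow_le_rpow_of_exponent_le hX (by linarith)
    have hTB : (1 : ℝ) ≤ (1 + |t|) ^ B' := one_le_pow₀ hT1
    have hXY : X ≤ Y := by
      calc X ≤ X ^ (1 + e / 4) * 1 := by rw [mul_one]; exact hXe
        _ ≤ _ := by rw [hYdef]; gcongr
    have hY1 : 1 ≤ Y := hX.trans hXY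
    have hY0 : 0 < Y := by linarith
    -- pointwise
    have hpt : ∀ q ∈ Q 1 X, ‖LL 1 q z‖ ^ 4 ≤ 2 * ‖SS q z Y‖ ^ 2 +
        2 * (CA * Y ^ (-(2 * κ))) ^ 2 * JJ κ q t ^ 2 := by
      intro q hq
      have h2 := hA' q z Y (memQ hq).1 hz1 hz2 hY1
      have h3 : ‖LL 1 q z‖ ^ 2 ≤ ‖SS q z Y‖ + CA * Y ^ (-(2 * κ)) * JJ κ q t := h2
      have h4 : 0 ≤ ‖LL 1 q z‖ ^ 2 := by positivity
      calc ‖LL 1 q z‖ ^ 4 = (‖LL 1 q z‖ ^ 2) ^ 2 := by ring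
        _ ≤ (‖SS q z Y‖ + CA * Y ^ (-(2 * κ)) * JJ κ q t) ^ 2 := by gcongr
        _ ≤ _ := by nlinarith [sq_nonneg (‖SS q z Y‖ - CA * Y ^ (-(2 * κ)) * JJ κ q t)]
    have hs1 := hC' X Y z hX hY1 hz1
    have hs2 := key hL hF h0 h1 hCg hg hX hS0 hS t
    -- first term
    have hf1 : (X * Y) ^ (e / 8) * (X + Y) ≤ 2 * (X ^ (1 + e) * (1 + |t|) ^ A) := by
      have g1 : (X * Y) ^ (e / 8) ≤ Y ^ (e / 4) := by
        calc (X * Y) ^ (e / 8) ≤ (Y * Y) ^ (e / 8) :=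
              Real.rpow_le_rpow (by positivity) (by gcongr) (by positivity)
          _ = Y ^ (e / 8) * Y ^ (e / 8) := Real.mul_rpow hY0.le hY0.le
          _ = _ := by rw [← Real.rpow_add hY0]; congr 1; ring
      have g2 : X + Y ≤ 2 * Y := by linarith
      have g3 : Y ^ (e / 4) * Y = Y ^ (1 + e / 4) := by
        rw [add_comm, Real.rpow_add hY0, Real.rpow_one]
      have g4 : Y ^ (1 + e / 4) = (X ^ (1 + e / 4)) ^ (1 + e / 4) * ((1 + |t|) ^ B') ^ (1 + e / 4) := by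
        rw [hYdef]
        exact Real.mul_rpow (by positivity) (by positivity)
      have g5 : (X ^ (1 + e / 4)) ^ (1 + e / 4) ≤ X ^ (1 + e) := by
        rw [← Real.rpow_mul hX0.le]
        exact Real.rpow_le_rpow_of_exponent_le hX (by nlinarith)
      have g6 : ((1 + |t|) ^ B') ^ (1 + e / 4) ≤ (1 + |t|) ^ A := by
        calc ((1 + |t|) ^ B') ^ (1 + e / 4) ≤ ((1 + |t|) ^ B') ^ (2 : ℝ) :=
              Real.rpow_le_rpow_of_exponent_le hTB (by linarith)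
          _ = (1 + |t|) ^ (2 * B') := by rw [Real.rpow_two, ← pow_mul, mul_comm]
          _ ≤ _ := pow_le_pow_right₀ hT1 (by omega)
      calc (X * Y) ^ (e / 8) * (X + Y) ≤ Y ^ (e / 4) * (2 * Y) := by gcongr
        _ = 2 * (Y ^ (e / 4) * Y) := by ring
        _ = 2 * ((X ^ (1 + e / 4)) ^ (1 + e / 4) * ((1 + |t|) ^ B') ^ (1 + e / 4)) := by rw [g3, g4]
        _ ≤ _ := by gcongr
    -- second term
    have hf2 : (Y ^ (-(2 * κ))) ^ 2 * ((X ^ κ) ^ 4 * (1 + |t|) ^ (4 * B)) ≤ X ^ (-(κ * e)) := by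
      have g1 : (Y ^ (-(2 * κ))) ^ 2 = X ^ (-(4 * κ) - κ * e) * (1 + |t|) ^ (-(4 * κ * B')) := by
        rw [← Real.rpow_natCast (Y ^ (-(2 * κ))) 2, ← Real.rpow_mul hY0.le, hYdef,
          Real.mul_rpow (by positivity) (by positivity), ← Real.rpow_mul hX0.le, ← Real.rpow_natCast (1 + |t|) B',
          ← Real.rpow_mul hT0.le]
        congr 2
        · push_cast; ring
        · push_cast; ring
      have g2 : (X ^ κ) ^ 4 = X ^ (4 * κ) := by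
        rw [← Real.rpow_natCast (X ^ κ) 4, ← Real.rpow_mul hX0.le]
        congr 1; push_cast; ring
      have g3 : (1 + |t|) ^ (-(4 * κ * B')) * (1 + |t|) ^ (4 * B) ≤ 1 := by
        rw [← Real.rpow_natCast (1 + |t|) (4 * B), ← Real.rpow_add hT0]
        refine Real.rpow_le_one_of_one_le_of_nonpos hT1 ?_
        push_cast
        nlinarith
      rw [g1, g2]
      calc X ^ (-(4 * κ) - κ * e) * (1 + |t|) ^ (-(4 * κ * B')) * (X ^ (4 * κ) * (1 + |t|) ^ (4 * B))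
          = (X ^ (-(4 * κ) - κ * e) * X ^ (4 * κ)) * ((1 + |t|) ^ (-(4 * κ * B')) * (1 + |t|) ^ (4 * B)) := by ring
        _ ≤ (X ^ (-(4 * κ) - κ * e) * X ^ (4 * κ)) * 1 := by gcongr
        _ = _ := by
            rw [mul_one, ← Real.rpow_add hX0]
            congr 1; ring
    calc ∑ q ∈ Q 1 X, ‖LL 1 q z‖ ^ 4
        ≤ ∑ q ∈ Q 1 X, (2 * ‖SS q z Y‖ ^ 2 + 2 * (CA * Y ^ (-(2 * κ))) ^ 2 * JJ κ q t ^ 2) := Finset.sum_le_sum hpt
      _ = 2 * (∑ q ∈ Q 1 X, ‖SS q z Y‖ ^ 2) + 2 * (CA * Y ^ (-(2 * κ))) ^ 2 * ∑ q ∈ Q 1 X, JJ κ q t ^ 2 := by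
          rw [Finset.sum_add_distrib, Finset.mul_sum, Finset.mul_sum]
      _ ≤ 2 * (CC * (X * Y) ^ (e / 8) * (X + Y)) + 2 * (CA * Y ^ (-(2 * κ))) ^ 2 *
          (E0 * ((X ^ κ) ^ 4 * Cg ^ 4 * S * (1 + |t|) ^ (4 * B + A) * cc)) := by gcongr
      _ = 2 * CC * ((X * Y) ^ (e / 8) * (X + Y)) + C3 * S * (1 + |t|) ^ A *
          ((Y ^ (-(2 * κ))) ^ 2 * ((X ^ κ) ^ 4 * (1 + |t|) ^ (4 * B))) := by
          rw [hC3def, pow_add (1 + |t|) (4 * B) A]; ring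
      _ ≤ 2 * CC * (2 * (X ^ (1 + e) * (1 + |t|) ^ A)) + C3 * S * (1 + |t|) ^ A * X ^ (-(κ * e)) := by gcongr
      _ = _ := by ring
  -- the bootstrap
  set X0 : ℝ := max 1 ((2 * C3 + 1) ^ (1 / (κ * e))) with hX0def
  have hX01 : 1 ≤ X0 := le_max_left _ _
  set KK : ℝ := 8 * CC + 32 * X0 ^ 5 with hKKdef
  have hKK : 0 ≤ KK := by positivity
  have hke : 0 < κ * e := by positivity
  have BOOT : ∀ X : ℝ, 1 ≤ X → ∃ S : ℝ, 0 ≤ S ∧ (∀ τ, MM κ X τ ≤ S * (1 + |τ|) ^ A) ∧ S ≤ KK * X ^ (1 + e) := by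
    intro X hX
    have hX0' : 0 < X := by linarith
    have hXe1 : (1 : ℝ) ≤ X ^ (1 + e) := Real.one_le_rpow hX (by linarith)
    have hb : ∀ t : ℝ, MM κ X t / (1 + |t|) ^ A ≤ 32 * X ^ 5 := by
      intro t
      have hT1 : (1 : ℝ) ≤ 1 + |t| := by linarith [abs_nonneg t]
      rw [div_le_iff₀ (by positivity)]
      refine (MM_triv hL h0 h1 hX t).trans ?_
      have : (1 + |t|) ^ 4 ≤ (1 + |t|) ^ A := pow_le_pow_right₀ hT1 (by omega)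
      gcongr
    have hbdd : BddAbove (range fun t : ℝ => MM κ X t / (1 + |t|) ^ A) :=
      ⟨32 * X ^ 5, by rintro _ ⟨t, rfl⟩; exact hb t⟩
    set S : ℝ := ⨆ t : ℝ, MM κ X t / (1 + |t|) ^ A with hSdef
    have hMM0 : ∀ t, 0 ≤ MM κ X t := fun t => Finset.sum_nonneg fun q _ => by positivity
    have hS0 : 0 ≤ S := by
      refine le_trans ?_ (le_ciSup hbdd 0)
      have := hMM0 0
      positivity
    have hS : ∀ τ, MM κ X τ ≤ S * (1 + |τ|) ^ A := by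
      intro τ
      have := le_ciSup hbdd τ
      rwa [div_le_iff₀ (by positivity)] at this
    refine ⟨S, hS0, hS, ?_⟩
    rcases le_or_gt X0 X with hXX | hXX
    · have hS1 : S ≤ 4 * CC * X ^ (1 + e) + C3 * X ^ (-(κ * e)) * S := by
        refine ciSup_le fun t => ?_
        rw [div_le_iff₀ (by positivity)]
        have h5 := KEY X S hX hS0 hS (ln (1 / 2 + κ) t) (by rw [ln_re]) (by rw [ln_re]; linarith)
        rw [ln_im] at h5
        exact h5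
      have h6 : 2 * C3 + 1 ≤ X ^ (κ * e) := by
        have h7 : (2 * C3 + 1) ^ (1 / (κ * e)) ≤ X := (le_max_right _ _).trans hXX
        have h8 := Real.rpow_le_rpow (by positivity) h7 hke.le
        rwa [← Real.rpow_mul (by positivity), one_div_mul_cancel hke.ne', Real.rpow_one] at h8
      have h9 : C3 * X ^ (-(κ * e)) ≤ 1 / 2 := by
        rw [Real.rpow_neg hX0'.le, ← div_eq_mul_inv, div_le_iff₀ (by positivity)]
        linarith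
      have h10 : C3 * X ^ (-(κ * e)) * S ≤ 1 / 2 * S := by gcongr
      have h11 : S ≤ 8 * CC * X ^ (1 + e) := by linarith
      refine h11.trans ?_
      rw [hKKdef]
      have : 0 ≤ 32 * X0 ^ 5 := by positivity
      gcongr
      linarith
    · have h5 : S ≤ 32 * X ^ 5 := ciSup_le hb
      have h6 : X ^ 5 ≤ X0 ^ 5 := by gcongr
      calc S ≤ 32 * X0 ^ 5 * 1 := by linarith
        _ ≤ KK * X ^ (1 + e) := by
            rw [hKKdef]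
            gcongr
            have : 0 ≤ 8 * CC := by positivity
            linarith
  -- the end
  refine ⟨max (4 * CC + C3 * KK) (2 * Zc (9 / 8) ^ 4), A, fun X z hX hz => ?_⟩
  have hX0' : 0 < X := by linarith
  have hT1 : (1 : ℝ) ≤ 1 + |z.im| := by linarith [abs_nonneg z.im]
  have hTA : (1 : ℝ) ≤ (1 + |z.im|) ^ A := one_le_pow₀ hT1
  have hXε : X ^ (1 + e) ≤ X ^ (1 + ε) := Real.rpow_le_rpow_of_exponent_le hX (by linarith)
  have hXε1 : X ≤ X ^ (1 + ε) := by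
    calc X = X ^ (1 : ℝ) := (Real.rpow_one X).symm
      _ ≤ _ := Real.rpow_le_rpow_of_exponent_le hX (by linarith)
  rcases le_or_gt z.re (9 / 8) with hz2 | hz2
  · obtain ⟨S, hS0, hS, hSK⟩ := BOOT X hX
    have h5 := KEY X S hX hS0 hS z (by linarith) hz2
    have h6 : X ^ (-(κ * e)) ≤ 1 := Real.rpow_le_one_of_one_le_of_nonpos hX (by linarith)
    calc ∑ q ∈ Q 1 X, ‖LL 1 q z‖ ^ 4
        ≤ (4 * CC * X ^ (1 + e) + C3 * X ^ (-(κ * e)) * S) * (1 + |z.im|) ^ A := h5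
      _ ≤ (4 * CC * X ^ (1 + e) + C3 * 1 * (KK * X ^ (1 + e))) * (1 + |z.im|) ^ A := by gcongr
      _ = (4 * CC + C3 * KK) * (1 + |z.im|) ^ A * X ^ (1 + e) := by ring
      _ ≤ max (4 * CC + C3 * KK) (2 * Zc (9 / 8) ^ 4) * (1 + |z.im|) ^ A * X ^ (1 + ε) := by
          gcongr
          exact le_max_left _ _
  · have h5 : ∀ q ∈ Q 1 X, ‖LL 1 q z‖ ^ 4 ≤ Zc (9 / 8) ^ 4 := by
      intro q hq
      have := big_re (memQ hq).1 hz2.le
      gcongr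
    have hZ : 0 ≤ Zc (9 / 8) := Zc_nonneg _
    calc ∑ q ∈ Q 1 X, ‖LL 1 q z‖ ^ 4 ≤ ∑ _q ∈ Q 1 X, Zc (9 / 8) ^ 4 := Finset.sum_le_sum h5
      _ = ((Q 1 X).card : ℝ) * Zc (9 / 8) ^ 4 := by rw [Finset.sum_const, nsmul_eq_mul]
      _ ≤ (2 * X) * Zc (9 / 8) ^ 4 := by
          have := Q_card' hX
          gcongr
      _ = (2 * Zc (9 / 8) ^ 4) * 1 * X := by ring
      _ ≤ max (4 * CC + C3 * KK) (2 * Zc (9 / 8) ^ 4) * (1 + |z.im|) ^ A * X ^ (1 + ε) := by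
          gcongr
          exact le_max_right _ _

end Pool.Agent.Run7.h501.MD
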