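import Pool.Agent.Run7.h473.MD.Iface
import Pool.Agent.N879.QM.Afs

set_option autoImplicit false

/-!
Piece M4D of the project MD of helper473, preparations.
-/

namespace Pool.Agent.Run7.h501.MD

open Complex Filter Topology MeasureTheory Set
open Pool.Agent.Q48.MDS Pool.Agent.N879.QM Pool.Agent.Run7.h473.MD

lemma int_w (N : ℕ) : Integrable (fun v : ℝ => (1 + |v|) ^ N * Real.exp (-|v|)) := by
  have h := integrable_pow_exp (V := ℝ) N (r := 1) one_pos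
  refine h.congr (Eventually.of_forall fun v => ?_)
  simp [Real.norm_eq_abs]

lemma cs_w {f : ℝ → ℝ} (h1 : Integrable fun v => f v * Real.exp (-|v|))
    (h2 : Integrable fun v => f v ^ 2 * Real.exp (-|v|)) :
    (∫ v, f v * Real.exp (-|v|)) ^ 2 ≤ (∫ v : ℝ, Real.exp (-|v|)) * ∫ v, f v ^ 2 * Real.exp (-|v|) := by
  have h0 : Integrable fun v : ℝ => Real.exp (-|v|) := by simpa using int_w 0
  have key : ∀ x : ℝ, 0 ≤ (∫ v : ℝ, Real.exp (-|v|)) * (x * x) + (-(2 * ∫ v, f v * Real.exp (-|v|))) * x +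
      ∫ v, f v ^ 2 * Real.exp (-|v|) := by
    intro x
    have h3 : 0 ≤ ∫ v, (f v - x) ^ 2 * Real.exp (-|v|) := integral_nonneg fun v => by positivity
    have e : (fun v => (f v - x) ^ 2 * Real.exp (-|v|)) = fun v => f v ^ 2 * Real.exp (-|v|) +
        (-(2 * x)) * (f v * Real.exp (-|v|)) + x ^ 2 * Real.exp (-|v|) := by funext v; ring
    have A1 : Integrable (fun v => f v ^ 2 * Real.exp (-|v|) + (-(2 * x)) * (f v * Real.exp (-|v|))) :=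
      h2.add (h1.const_mul _)
    rw [e, integral_add A1 (h0.const_mul _), integral_add h2 (h1.const_mul _),
      integral_const_mul, integral_const_mul] at h3
    linarith
  have h4 := discrim_le_zero key
  unfold discrim at h4
  nlinarith

/-- the points of the line -/
noncomputable def ln (c τ : ℝ) : ℂ := ((c : ℝ) : ℂ) + I * ((τ : ℝ) : ℂ)

lemma ln_re (c τ : ℝ) : (ln c τ).re = c := by simp [ln]

lemma ln_im (c τ : ℝ) : (ln c τ).im = τ := by simp [ln]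

lemma ln_norm {c τ : ℝ} (h0 : 0 ≤ c) (h1 : c ≤ 1) : ‖ln c τ‖ ≤ 1 + |τ| := by
  refine (Complex.norm_le_abs_re_add_abs_im _).trans ?_
  rw [ln_re, ln_im, abs_of_nonneg h0]
  linarith

lemma ln_cont (c t : ℝ) : Continuous fun v : ℝ => ln c (t + v) := by unfold ln; fun_prop

lemma L_line (hL : S_LBD) {q : ℕ} (hq : Is 1 q) {c : ℝ} (h0 : 0 < c) (h1 : c ≤ 1) (τ : ℝ) :
    ‖LL 1 q (ln c τ)‖ ≤ q * (1 + |τ|) / c := by
  have h := (hL q hq).2 (ln c τ) (by rw [ln_re]; exact h0)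
  rw [ln_re] at h
  refine h.trans ?_
  have := ln_norm (τ := τ) h0.le h1
  gcongr

lemma abs_add_le' (t v : ℝ) : 1 + |t + v| ≤ (1 + |t|) * (1 + |v|) := by
  have h := abs_add_le t v
  have h2 : 0 ≤ |t| * |v| := by positivity
  nlinarith

lemma L_int (hL : S_LBD) {q : ℕ} (hq : Is 1 q) {c : ℝ} (h0 : 0 < c) (h1 : c ≤ 1) (t : ℝ) (m : ℕ) :
    Integrable fun v : ℝ => ‖LL 1 q (ln c (t + v))‖ ^ m * Real.exp (-|v|) := by
  have hc : Continuous fun v : ℝ => ‖LL 1 q (ln c (t + v))‖ ^ m * Real.exp (-|v|) := by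
    have := (hL q hq).1.continuous.comp (ln_cont c t)
    exact (this.norm.pow m).mul (by fun_prop)
  refine ((int_w m).const_mul ((q * (1 + |t|) / c) ^ m)).mono' hc.aestronglyMeasurable
    (Eventually.of_forall fun v => ?_)
  rw [Real.norm_of_nonneg (by positivity), ← mul_assoc, ← mul_pow]
  have h2 := L_line hL hq h0 h1 (t + v)
  have h3 := abs_add_le' t v
  have h4 : ‖LL 1 q (ln c (t + v))‖ ≤ q * (1 + |t|) / c * (1 + |v|) := by
    calc _ ≤ q * (1 + |t + v|) / c := h2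
      _ ≤ q * ((1 + |t|) * (1 + |v|)) / c := by gcongr
      _ = _ := by ring
  gcongr

/-- the functional equation on the line -/
lemma fe_line (hF : S_FEQ) {κ Cg : ℝ} {B : ℕ} (h0 : 0 < κ) (h1 : κ ≤ 1 / 8)
    (hg : ∀ s : ℂ, 1 / 2 - κ ≤ s.re → s.re ≤ 1 / 2 → ‖gam s‖ ≤ Cg * (1 + |s.im|) ^ B) {X : ℝ} (hX : 1 ≤ X)
    {q : ℕ} (hq : q ∈ Q 1 X) (τ : ℝ) :
    ‖LL 1 q (ln (1 / 2 - κ) τ)‖ ≤ X ^ κ * (Cg * (1 + |τ|) ^ B) * ‖LL 1 q (ln (1 / 2 + κ) (-τ))‖ := by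
  classical
  unfold Q at hq
  rw [Finset.mem_filter, Finset.mem_Ico] at hq
  obtain ⟨⟨hq2, hqX⟩, hI⟩ := hq
  have hqX' : (q : ℝ) ≤ X := (Nat.lt_ceil.1 hqX).le
  have hre := ln_re (1 / 2 - κ) τ
  rw [hF q hI (ln (1 / 2 - κ) τ) (by rw [hre]; linarith) (by rw [hre]; linarith), norm_mul, norm_mul]
  have e1 : (1 : ℂ) - ln (1 / 2 - κ) τ = ln (1 / 2 + κ) (-τ) := by
    unfold ln; push_cast; ring
  rw [e1]
  have e2 : ‖(q : ℂ) ^ (1 / 2 - ln (1 / 2 - κ) τ)‖ = (q : ℝ) ^ κ := by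
    rw [Complex.norm_natCast_cpow_of_pos (by omega)]
    congr 1
    rw [Complex.sub_re, hre]
    norm_num
  rw [e2]
  have h3 := hg (ln (1 / 2 - κ) τ) (by rw [hre]) (by rw [hre]; linarith)
  rw [ln_im] at h3
  have h4 : (q : ℝ) ^ κ ≤ X ^ κ := Real.rpow_le_rpow (by positivity) hqX' h0.le
  gcongr

/-- the fourth moment on the line `1/2 + κ` -/
noncomputable def MM (κ X t : ℝ) : ℝ := ∑ q ∈ Q 1 X, ‖LL 1 q (ln (1 / 2 + κ) t)‖ ^ 4

lemma memQ {X : ℝ} {q : ℕ} (hq : q ∈ Q 1 X) : Is 1 q ∧ (q : ℝ) ≤ X := by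
  classical
  unfold Q at hq
  rw [Finset.mem_filter, Finset.mem_Ico] at hq
  exact ⟨hq.2, (Nat.lt_ceil.1 hq.1.2).le⟩

lemma Q_card' {X : ℝ} (hX : 1 ≤ X) : ((Q 1 X).card : ℝ) ≤ 2 * X := by
  classical
  have h1 : (Q 1 X).card ≤ ⌈X⌉₊ := by
    unfold Q
    refine (Finset.card_filter_le _ _).trans ?_
    rw [Nat.card_Ico]; omega
  have h2 := Nat.ceil_lt_add_one (show 0 ≤ X by linarith)
  have h3 : ((Q 1 X).card : ℝ) ≤ (⌈X⌉₊ : ℝ) := by exact_mod_cast h1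
  linarith

lemma MM_triv (hL : S_LBD) {κ : ℝ} (h0 : 0 < κ) (h1 : κ ≤ 1 / 8) {X : ℝ} (hX : 1 ≤ X) (t : ℝ) :
    MM κ X t ≤ 32 * X ^ 5 * (1 + |t|) ^ 4 := by
  unfold MM
  have h2 : ∀ q ∈ Q 1 X, ‖LL 1 q (ln (1 / 2 + κ) t)‖ ^ 4 ≤ (X * (1 + |t|) * 2) ^ 4 := by
    intro q hq
    obtain ⟨hI, hqX⟩ := memQ hq
    have h3 := L_line hL hI (show 0 < 1 / 2 + κ by linarith) (show 1 / 2 + κ ≤ 1 by linarith) t
    have h4 : (q : ℝ) * (1 + |t|) / (1 / 2 + κ) ≤ X * (1 + |t|) * 2 := by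
      rw [div_le_iff₀ (by linarith)]
      have h5 : (q : ℝ) * (1 + |t|) ≤ X * (1 + |t|) := by gcongr
      have h6 : 0 ≤ X * (1 + |t|) := by positivity
      nlinarith
    have h7 := h3.trans h4
    gcongr
  refine (Finset.sum_le_sum h2).trans ?_
  rw [Finset.sum_const, nsmul_eq_mul]
  have h3 := Q_card' hX
  have h4 : 0 ≤ (X * (1 + |t|) * 2) ^ 4 := by positivity
  calc ((Q 1 X).card : ℝ) * (X * (1 + |t|) * 2) ^ 4 ≤ (2 * X) * (X * (1 + |t|) * 2) ^ 4 := by gcongr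
    _ = _ := by ring

end Pool.Agent.Run7.h501.MD
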